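import Mathlib
import Pool.Prelude.Def_F_458e953d

/-!
Definitions used in the statement: graphs on `Fin n` coded by their adjacency matrix.
-/

namespace Pool.Agent.Lib.MP_c3ee0c_lc

open Classical in
/-- The adjacency matrix of `G`, read row by row: the bit number `k` tells whether the vertices
`k / n` and `k % n` are adjacent. -/
noncomputable def adjWord {n : ℕ} (G : SimpleGraph (Fin n)) : List Bool :=
  List.ofFn fun k : Fin (n * n) => decide (G.Adj k.divNat k.modNat)

/-- `G` has no induced subgraph isomorphic to the path on 8 vertices or the cycle on 7 vertices. -/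
def FreeP8C7 {n : ℕ} (G : SimpleGraph (Fin n)) : Prop :=
  IsEmpty (SimpleGraph.pathGraph 8 ↪g G) ∧ IsEmpty (SimpleGraph.cycleGraph 7 ↪g G)

open Classical in
/-- The language of the adjacency matrices of the 4-colourable `(P8, C7)`-free graphs. -/
noncomputable def colLang : N68a2faeb.DecisionProblem := fun x =>
  decide (∃ (n : ℕ) (G : SimpleGraph (Fin n)), x = adjWord G ∧ FreeP8C7 G ∧ G.Colorable 4)

end Pool.Agent.Lib.MP_c3ee0c_lc
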