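import Pool.Agent.Lib.MP_c3ee0c_lc.Kinds
import Pool.Agent.Lib.MP_c3ee0c_lc.Defs
import Pool.Agent.Shared.PolyTime.NPComplete

/-!
The gadget graph of a 3-CNF formula: it is `(P8, C7)`-free, and 4-colourable iff the formula is
satisfiable.
-/

namespace Pool.Agent.Lib.MP_c3ee0c_lc

open Pool.Agent.Shared.PolyTime

/-- The clause of a vertex. -/
def cl (φ : List (Clause3 ℕ)) (j : ℕ) : Clause3 ℕ :=
  φ[j]?.getD ((0, false), (0, false), (0, false))

/-- The literal number `i` of a clause. -/
def pick (c : Clause3 ℕ) (i : ℕ) : Lit ℕ :=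
  if i = 0 then c.1 else if i = 1 then c.2.1 else c.2.2

/-- The literal of a vertex. -/
def lit (φ : List (Clause3 ℕ)) (u : ℕ) : Lit ℕ := pick (cl φ (u / 23)) (u % 23 % 3)

/-- The kind, from the residue and the sign. -/
def kindOf (r : ℕ) (s : Bool) : ℕ := if 12 ≤ r ∧ r ≤ 14 ∧ s = false then r + 11 else r

/-- The kind of a vertex. -/
def kind (φ : List (Clause3 ℕ)) (u : ℕ) : ℕ := kindOf (u % 23) (lit φ u).2

/-- Adjacency in the gadget graph. -/
def adj (φ : List (Clause3 ℕ)) (u v : ℕ) : Bool :=
  tF (kind φ u) (kind φ v) || (tL (kind φ u) (kind φ v) && decide (u / 23 = v / 23)) ||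
    (tV (kind φ u) (kind φ v) && decide ((lit φ u).1 = (lit φ v).1))

theorem kindOf_lt {r : ℕ} (h : r < 23) (s : Bool) : kindOf r s < 26 := by
  unfold kindOf
  split_ifs <;> omega

theorem kind_lt (φ : List (Clause3 ℕ)) (u : ℕ) : kind φ u < 26 :=
  kindOf_lt (Nat.mod_lt _ (by norm_num)) _

theorem base_kindOf : ∀ r < 23, ∀ s, base (kindOf r s) = r := by decide +kernel

theorem tables_symm : ∀ a < 26, ∀ b < 26, tF a b = tF b a ∧ tL a b = tL b a ∧ tV a b = tV b a := by
  decide +kernel

theorem tables_irrefl : ∀ a < 26, tF a a = false ∧ tL a a = false ∧ tV a a = false := by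
  decide +kernel

theorem adj_comm (φ : List (Clause3 ℕ)) (u v : ℕ) : adj φ u v = adj φ v u := by
  obtain ⟨h1, h2, h3⟩ := tables_symm _ (kind_lt φ u) _ (kind_lt φ v)
  simp only [adj, h1, h2, h3, eq_comm (a := u / 23), eq_comm (a := (lit φ u).1)]

theorem adj_self (φ : List (Clause3 ℕ)) (u : ℕ) : adj φ u u = false := by
  obtain ⟨h1, h2, h3⟩ := tables_irrefl _ (kind_lt φ u)
  simp [adj, h1, h2, h3]

/-- The model of the gadget graph. -/
def model (φ : List (Clause3 ℕ)) : Model ℕ where
  kind := kind φ
  idx u := u / 23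
  var u := (lit φ u).1
  adj u v := adj φ u v = true
  kind_lt := kind_lt φ
  adj_iff u v := by simp [adj, or_assoc]
  inj u v h1 h2 := by
    rw [kind, kind, base_kindOf _ (Nat.mod_lt _ (by norm_num)),
      base_kindOf _ (Nat.mod_lt _ (by norm_num))] at h1
    omega

/-- The gadget graph. -/
def graph (φ : List (Clause3 ℕ)) : SimpleGraph (Fin (23 * φ.length)) where
  Adj u v := adj φ u v = true
  symm := ⟨fun u v h => by rwa [adj_comm]⟩
  loopless := ⟨fun u h => by simp [adj_self] at h⟩

theorem graph_free (φ : List (Clause3 ℕ)) : FreeP8C7 (graph φ) := by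
  constructor
  · refine ⟨fun e => ?_⟩
    refine (model φ).no_path (fun i => if h : i < 8 then (e ⟨i, h⟩ : ℕ) else 0) ?_ ?_
    · intro i j hi hj h
      simp only [hi, hj, dite_true] at h
      exact congrArg Fin.val (e.injective (Fin.ext h))
    · intro i j hi hj
      simp only [hi, hj, dite_true]
      exact (e.map_adj_iff (v := ⟨i, hi⟩) (w := ⟨j, hj⟩)).trans SimpleGraph.pathGraph_adj
  · refine ⟨fun e => ?_⟩
    refine (model φ).no_cycle (fun i => if h : i < 7 then (e ⟨i, h⟩ : ℕ) else 0) ?_ ?_
    · intro i j hi hj h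
      simp only [hi, hj, dite_true] at h
      exact congrArg Fin.val (e.injective (Fin.ext h))
    · intro i j hi hj
      simp only [hi, hj, dite_true]
      refine (e.map_adj_iff (v := ⟨i, hi⟩) (w := ⟨j, hj⟩)).trans ?_
      have key : ∀ a b : Fin 7, (SimpleGraph.cycleGraph 7).Adj a b ↔
          ((a : ℕ) + 1) % 7 = b ∨ ((b : ℕ) + 1) % 7 = a := by decide
      exact key _ _

/-- The colour of a vertex, from its kind, the truth values of the three literals of its clause and
the truth value of its variable. -/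
def colour (k : ℕ) (b0 b1 b2 own : Bool) : Fin 4 :=
  if k ≤ 2 then (if own then 2 else 3)
  else if k = 3 then (if b0 then 3 else 2)
  else if k = 4 then (if b1 then 3 else 2)
  else if k = 5 then (if b2 then 2 else 3)
  else if k = 6 then (if b0 then 0 else 3)
  else if k = 7 then (if b1 then 0 else 3)
  else if k = 8 then (if b2 then 0 else 2)
  else if k = 9 then (if b0 then 1 else 0)
  else if k = 10 then (if b1 then 1 else 0)
  else if k = 11 then (if b2 then 1 else 0)
  else if k ≤ 14 then (if own then 3 else 1)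
  else if k = 15 then (if b0 then 2 else 0)
  else if k = 16 then (if b0 then 0 else 1)
  else if k = 17 then (if b0 then 1 else if b1 then 2 else 0)
  else if k = 18 then (if b0 || b1 then 0 else 3)
  else if k = 19 then 0
  else if k = 20 then 1
  else if k = 21 then 2
  else if k = 22 then 3
  else (if own then 1 else 2)

theorem colour_allowed : ∀ k < 26, ∀ b0 b1 b2 own, allowed k (colour k b0 b1 b2 own) = true := by
  decide +kernel

theorem allowed_tF : ∀ a < 26, ∀ b < 26, tF a b = true → ∀ c : Fin 4, allowed a c = true →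
    allowed b c = false := by
  decide +kernel

theorem colour_tV : ∀ a < 26, ∀ b < 26, tV a b = true → ∀ b0 b1 b2 c0 c1 c2 own,
    colour a b0 b1 b2 own ≠ colour b c0 c1 c2 own := by
  decide +kernel

/-- The truth value of the literal number `i`. -/
def pickB (b0 b1 b2 : Bool) (i : ℕ) : Bool := if i = 0 then b0 else if i = 1 then b1 else b2

set_option synthInstance.maxSize 4096 in
theorem colour_tL : ∀ r < 23, ∀ r' < 23, ∀ s s' : Bool, tL (kindOf r s) (kindOf r' s') = true →
    ∀ b0 b1 b2 own own' : Bool, (b0 || b1 || b2) = true → pickB b0 b1 b2 (r % 3) = (own == s) →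
    pickB b0 b1 b2 (r' % 3) = (own' == s') →
    colour (kindOf r s) b0 b1 b2 own ≠ colour (kindOf r' s') b0 b1 b2 own' := by
  decide +kernel

theorem cl_mem {φ : List (Clause3 ℕ)} {j : ℕ} (h : j < φ.length) : cl φ j ∈ φ := by
  simp [cl, h]

theorem colorable_of_sat {φ : List (Clause3 ℕ)} (h : Sat3 φ) : (graph φ).Colorable 4 := by
  obtain ⟨ν, hν⟩ := h
  let tv : Lit ℕ → Bool := fun l => ν l.1 == l.2
  let col : ℕ → Fin 4 := fun u => colour (kind φ u) (tv (cl φ (u / 23)).1) (tv (cl φ (u / 23)).2.1)
    (tv (cl φ (u / 23)).2.2) (ν (lit φ u).1)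
  refine ⟨SimpleGraph.Coloring.mk (fun u => col u) ?_⟩
  intro u v huv
  have huv' : adj φ u v = true := huv
  simp only [adj, Bool.or_eq_true, Bool.and_eq_true, decide_eq_true_eq] at huv'
  rcases huv' with (h | ⟨h, h'⟩) | ⟨h, h'⟩
  · intro hc
    have h1 : allowed (kind φ u) (col u) = true := colour_allowed _ (kind_lt φ u) _ _ _ _
    have h2 : allowed (kind φ v) (col v) = true := colour_allowed _ (kind_lt φ v) _ _ _ _
    have h3 := allowed_tF _ (kind_lt φ u) _ (kind_lt φ v) h _ h1
    have hc' : col u = col v := hc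
    rw [hc', h2] at h3
    exact absurd h3 (by simp)
  · have hj : (u : ℕ) / 23 < φ.length := by have := u.2; omega
    have hs := hν _ (cl_mem hj)
    have hp : ∀ w : ℕ, pickB (tv (cl φ (w / 23)).1) (tv (cl φ (w / 23)).2.1)
        (tv (cl φ (w / 23)).2.2) (w % 23 % 3) = (ν (lit φ w).1 == (lit φ w).2) := by
      intro w
      simp only [pickB, lit, pick, tv]
      split_ifs <;> rfl
    have h1 := hp u
    have h2 := hp v
    rw [← h'] at h2
    have := colour_tL _ (Nat.mod_lt u (by norm_num)) _ (Nat.mod_lt v (by norm_num)) _ _ h _ _ _ _ _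
      (by simpa [tv, Clause3.Holds, or_assoc] using hs) h1 h2
    simp only [col]
    rw [← h']
    exact this
  · simp only [col]
    rw [← h']
    exact colour_tV _ (kind_lt φ u) _ (kind_lt φ v) h _ _ _ _ _ _ _

theorem tF_of_not_allowed : ∀ a < 26, ∀ c : Fin 4, allowed a c = false → tF a (19 + c) = true := by
  decide +kernel

set_option synthInstance.maxSize 4096 in
theorem clause_force : ∀ p0 p1 p2 z x a w : Fin 4, allowed 3 p0 = true → allowed 4 p1 = true →
    allowed 5 p2 = true → allowed 15 z = true → allowed 16 x = true → allowed 17 a = true →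
    allowed 18 w = true → z ≠ x → x ≠ a → a ≠ w → z ≠ p0 → a ≠ p1 → w ≠ p2 →
    p0 = 3 ∨ p1 = 3 ∨ p2 = 2 := by
  decide +kernel

set_option synthInstance.maxSize 4096 in
theorem chain_force : ∀ i < 3, ∀ sg : Bool, ∀ p s u t y : Fin 4, allowed (6 + i) s = true →
    allowed (9 + i) u = true → allowed (kindOf (12 + i) sg) t = true →
    (allowed 0 y = true ∨ allowed 1 y = true ∨ allowed 2 y = true) →
    p = (if i = 2 then 2 else 3) → s ≠ p → s ≠ u → u ≠ t → t ≠ y →
    decide (y = 2) = sg := by
  intro i hi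
  interval_cases i <;> decide +kernel

theorem chain_edges : ∀ i < 3, ∀ sg : Bool, tL (6 + i) (3 + i) = true ∧ tL (6 + i) (9 + i) = true ∧
    tL (9 + i) (kindOf (12 + i) sg) = true ∧ ∀ i' < 3, tV (kindOf (12 + i) sg) i' = true := by
  decide +kernel

theorem kind_plain (φ : List (Clause3 ℕ)) (j : ℕ) {r : ℕ} (h : r < 12 ∨ (15 ≤ r ∧ r < 23)) :
    kind φ (23 * j + r) = r := by
  have : (23 * j + r) % 23 = r := by omega
  rw [kind, this, kindOf, if_neg (by omega)]

theorem lit_eq (φ : List (Clause3 ℕ)) (j : ℕ) {r : ℕ} (h : r < 23) :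
    lit φ (23 * j + r) = pick (cl φ j) (r % 3) := by
  have h1 : (23 * j + r) % 23 = r := by omega
  have h2 : (23 * j + r) / 23 = j := by omega
  rw [lit, h1, h2]

theorem sat_of_list_colouring {φ : List (Clause3 ℕ)} (col : ℕ → Fin 4)
    (hcol : ∀ u v, u < 23 * φ.length → v < 23 * φ.length → adj φ u v = true → col u ≠ col v)
    (hall : ∀ u, u < 23 * φ.length → allowed (kind φ u) (col u) = true) : Sat3 φ := by
  classical
  refine ⟨fun x => decide (∃ u, u < 23 * φ.length ∧ u % 23 < 3 ∧ (lit φ u).1 = x ∧ col u = 2), ?_⟩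
  intro c hc
  obtain ⟨j, hj, rfl⟩ := List.getElem_of_mem hc
  have hcl : cl φ j = φ[j] := by simp [cl, hj]
  have hL : ∀ r r', r < 23 → r' < 23 → tL (kind φ (23 * j + r)) (kind φ (23 * j + r')) = true →
      col (23 * j + r) ≠ col (23 * j + r') := by
    intro r r' hr hr' h
    refine hcol _ _ (by omega) (by omega) ?_
    have : (23 * j + r) / 23 = (23 * j + r') / 23 := by omega
    simp [adj, h, this]
  have hA : ∀ r, (r < 12 ∨ (15 ≤ r ∧ r < 23)) → allowed r (col (23 * j + r)) = true := by
    intro r hr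
    have := hall (23 * j + r) (by omega)
    rwa [kind_plain φ j hr] at this
  have hL' : ∀ r r', (r < 12 ∨ (15 ≤ r ∧ r < 23)) → (r' < 12 ∨ (15 ≤ r' ∧ r' < 23)) →
      tL r r' = true → col (23 * j + r) ≠ col (23 * j + r') := by
    intro r r' hr hr' h
    exact hL r r' (by omega) (by omega) (by rwa [kind_plain φ j hr, kind_plain φ j hr'])
  have key : ∀ i < 3, col (23 * j + (3 + i)) = (if i = 2 then 2 else 3) →
      decide (∃ u, u < 23 * φ.length ∧ u % 23 < 3 ∧ (lit φ u).1 = (pick φ[j] i).1 ∧ col u = 2) =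
        (pick φ[j] i).2 := by
    intro i hi hp
    have hlit : lit φ (23 * j + (12 + i)) = pick φ[j] i := by
      rw [lit_eq φ j (by omega), hcl, show (12 + i) % 3 = i by omega]
    have hk : kind φ (23 * j + (12 + i)) = kindOf (12 + i) (pick φ[j] i).2 := by
      rw [kind, hlit, show (23 * j + (12 + i)) % 23 = 12 + i by omega]
    obtain ⟨e1, e2, e3, e4⟩ := chain_edges i hi (pick φ[j] i).2
    have hy : ∀ u, u < 23 * φ.length → u % 23 < 3 → (lit φ u).1 = (pick φ[j] i).1 →
        decide (col u = 2) = (pick φ[j] i).2 := by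
      intro u hu hu' hv
      have hku : kind φ u = u % 23 := by rw [kind, kindOf, if_neg (by omega)]
      refine chain_force i hi _ (col (23 * j + (3 + i))) (col (23 * j + (6 + i)))
        (col (23 * j + (9 + i))) (col (23 * j + (12 + i))) (col u) (hA _ (by omega))
        (hA _ (by omega)) (hk ▸ hall _ (by omega)) ?_ hp (hL' _ _ (by omega) (by omega) e1)
        (hL' _ _ (by omega) (by omega) e2) (hL _ _ (by omega) (by omega) ?_) ?_
      · have := hall u hu
        rw [hku] at this
        have h3 : u % 23 = 0 ∨ u % 23 = 1 ∨ u % 23 = 2 := by omega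
        rcases h3 with h3 | h3 | h3 <;> rw [h3] at this <;> simp [this]
      · rwa [hk, kind_plain φ j (by omega)]
      · refine hcol _ _ (by omega) hu ?_
        simp [adj, hk, hku, e4 _ hu', hlit, hv]
    cases hs : (pick φ[j] i).2 with
    | false =>
      rw [decide_eq_false_iff_not]
      rintro ⟨u, hu, hu', hv, hc⟩
      have := hy u hu hu' hv
      simp [hs, hc] at this
    | true =>
      rw [decide_eq_true_eq]
      have hv : (lit φ (23 * j + i)).1 = (pick φ[j] i).1 := by
        rw [lit_eq φ j (by omega), hcl, Nat.mod_eq_of_lt hi]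
      have := hy (23 * j + i) (by omega) (by omega) hv
      exact ⟨23 * j + i, by omega, by omega, hv, by simpa [hs] using this⟩
  have h := clause_force _ _ _ _ _ _ _ (hA 3 (by omega)) (hA 4 (by omega)) (hA 5 (by omega))
    (hA 15 (by omega)) (hA 16 (by omega)) (hA 17 (by omega)) (hA 18 (by omega))
    (hL' _ _ (by omega) (by omega) (by decide +kernel))
    (hL' _ _ (by omega) (by omega) (by decide +kernel))
    (hL' _ _ (by omega) (by omega) (by decide +kernel))
    (hL' _ _ (by omega) (by omega) (by decide +kernel))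
    (hL' _ _ (by omega) (by omega) (by decide +kernel))
    (hL' _ _ (by omega) (by omega) (by decide +kernel))
  rcases h with h | h | h
  · exact Or.inl (key 0 (by omega) h)
  · exact Or.inr (Or.inl (key 1 (by omega) h))
  · exact Or.inr (Or.inr (key 2 (by omega) h))

theorem sat_of_colorable {φ : List (Clause3 ℕ)} (h : (graph φ).Colorable 4) : Sat3 φ := by
  obtain ⟨C⟩ := h
  rcases Nat.eq_zero_or_pos φ.length with h0 | h0
  · rw [List.length_eq_zero_iff] at h0
    subst h0
    exact ⟨fun _ => false, by simp⟩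
  let col : ℕ → Fin 4 := fun u => if h : u < 23 * φ.length then C ⟨u, h⟩ else 0
  have hcol : ∀ u v, u < 23 * φ.length → v < 23 * φ.length → adj φ u v = true →
      col u ≠ col v := by
    intro u v hu hv h
    simp only [col, hu, hv, dite_true]
    exact C.valid (show (graph φ).Adj ⟨u, hu⟩ ⟨v, hv⟩ from h)
  have hk : ∀ c : Fin 4, kind φ (19 + c) = 19 + c := by
    intro c
    have := kind_plain φ 0 (r := 19 + c) (by omega)
    simpa using this
  let σ : Fin 4 → Fin 4 := fun c => col (19 + c)
  have hσ : Function.Injective σ := by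
    intro a b hab
    by_contra hne
    refine hcol (19 + a) (19 + b) (by omega) (by omega) ?_ hab
    have : ∀ a b : Fin 4, a ≠ b → tF (19 + a) (19 + b) = true := by decide +kernel
    simp [adj, hk, this a b hne]
  let e : Fin 4 ≃ Fin 4 := Equiv.ofBijective σ (Finite.injective_iff_bijective.1 hσ)
  refine sat_of_list_colouring (fun u => e.symm (col u)) ?_ ?_
  · intro u v hu hv h hc
    exact hcol u v hu hv h (e.symm.injective hc)
  · intro u hu
    by_contra hn
    have h1 := tF_of_not_allowed _ (kind_lt φ u) _ (Bool.eq_false_iff.2 hn)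
    refine hcol u (19 + (e.symm (col u) : ℕ)) hu (by omega) ?_ ?_
    · simp [adj, hk, h1]
    · exact (e.apply_symm_apply (col u)).symm

theorem sat_iff_colorable (φ : List (Clause3 ℕ)) : Sat3 φ ↔ (graph φ).Colorable 4 :=
  ⟨colorable_of_sat, sat_of_colorable⟩

end Pool.Agent.Lib.MP_c3ee0c_lc
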