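import Mathlib

/-!
The kinds of vertices of the gadget graph and the finite search excluding induced `P8`, `C7`.

Kinds: 0-2 y, 3-5 p, 6-8 s, 9-11 u, 12-14 t (positive), 15 z, 16 x, 17 a, 18 w, 19-22 the four
colour classes, 23-25 t (negative).
-/

namespace Pool.Agent.Lib.MP_c3ee0c_lc

/-- Table lookup. -/
def look (M a b : ℕ) : Bool :=
  Nat.beq (Nat.land 1 (Nat.shiftRight M (Nat.add (Nat.mul 26 a) b))) 1

theorem look_eq (M a b : ℕ) : look M a b = M.testBit (26 * a + b) := by
  rw [Nat.testBit_eq_decide_div_mod_eq, ← Nat.shiftRight_eq_div_pow, ← Nat.one_and_eq_mod_two,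
    Bool.eq_iff_iff, decide_eq_true_eq]
  exact Nat.beq_eq.to_iff

def mF : ℕ := 22044975226453770330032092391075519626283985729934354154622155949387472121467220775341055138978927565392812327422846757071631533505621378817498842719023798390559692811987969461514082949676436208773303808

def mL : ℕ := 9568131537415757128648563423272982381237742454358654810806227381886407901879392795733797799250475468262229874199618983046943984765796429774859894450291806547252468956858358710109820610769228417466368

def mV : ℕ := 32703574834437135550227243727489303478264598848900695741195256055749373966375194251688442163037917094136314925512578391701977601514012439456046516355644151217419110167245834669450492136597242277888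

def mP : ℕ := 22054576061566020524296291181742520097968701736987561710128703372025414278743066543331040625220341078778168693611971888633070179467988689259713158659990445841258162700054995066058862220779342034433048064

/-- Forced adjacency between kinds. -/
def tF (a b : ℕ) : Bool := look mF a b

/-- Adjacency between kinds inside one clause. -/
def tL (a b : ℕ) : Bool := look mL a b

/-- Adjacency between kinds sharing a variable. -/
def tV (a b : ℕ) : Bool := look mV a b

/-- Possible adjacency between kinds. -/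
def poss (a b : ℕ) : Bool := look mP a b

theorem poss_eq (a b : ℕ) : poss a b = (tF a b || tL a b || tV a b) := by
  have : mP = mF ||| mL ||| mV := by decide +kernel
  simp only [poss, tF, tL, tV, look_eq, this, Nat.testBit_or]

theorem look_disj {M N : ℕ} (h : M &&& N = 0) {a b : ℕ} (h1 : look M a b = true) :
    look N a b = false := by
  have := congrArg (fun m => Nat.testBit m (26 * a + b)) h
  rw [look_eq] at h1 ⊢
  simpa only [Nat.testBit_and, h1, Bool.true_and, Nat.zero_testBit] using this

theorem tF_of_tL {a b : ℕ} (h : tL a b = true) : tF a b = false :=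
  look_disj (by decide +kernel) h

theorem tV_of_tL {a b : ℕ} (h : tL a b = true) : tV a b = false :=
  look_disj (by decide +kernel) h

theorem tF_of_tV {a b : ℕ} (h : tV a b = true) : tF a b = false :=
  look_disj (by decide +kernel) h

theorem tL_of_tV {a b : ℕ} (h : tV a b = true) : tL a b = false :=
  look_disj (by decide +kernel) h

/-- The lists of colours of the kinds. -/
def allowed (a c : ℕ) : Bool := (8113538926767547617946880494796 : ℕ).testBit (4 * a + c)

/-- Forget the sign. -/
def base (a : ℕ) : ℕ := cond (Nat.ble 23 a) (Nat.sub a 11) a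

def t3 (a b c : ℕ) : Bool := tL a b && (tL b c && Nat.beq (base a) (base c))

def t4 (a b c d : ℕ) : Bool := tV a b && (tV b c && (tV c d && tV a d))

/-- The kinds possibly adjacent to a kind. -/
def nb (a : ℕ) : List ℕ :=
  List.getD [[9, 10, 11, 12, 13, 14, 16, 19, 20, 23, 24, 25],
    [9, 10, 11, 12, 13, 14, 16, 19, 20, 23, 24, 25],
    [9, 10, 11, 12, 13, 14, 16, 19, 20, 23, 24, 25],
    [6, 9, 10, 11, 15, 16, 19, 20],
    [7, 9, 10, 11, 16, 17, 19, 20],
    [8, 9, 10, 11, 16, 18, 19, 20],
    [3, 9, 20, 21],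
    [4, 10, 20, 21],
    [5, 11, 20, 22],
    [0, 1, 2, 3, 4, 5, 6, 12, 21, 22, 23],
    [0, 1, 2, 3, 4, 5, 7, 13, 21, 22, 24],
    [0, 1, 2, 3, 4, 5, 8, 14, 21, 22, 25],
    [0, 1, 2, 9, 19, 21],
    [0, 1, 2, 10, 19, 21],
    [0, 1, 2, 11, 19, 21],
    [3, 16, 20, 22],
    [0, 1, 2, 3, 4, 5, 15, 17, 21, 22],
    [4, 16, 18, 22],
    [5, 17, 20, 21],
    [0, 1, 2, 3, 4, 5, 12, 13, 14, 20, 21, 22, 23, 24, 25],
    [0, 1, 2, 3, 4, 5, 6, 7, 8, 15, 18, 19, 21, 22],
    [6, 7, 9, 10, 11, 12, 13, 14, 16, 18, 19, 20, 22],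
    [8, 9, 10, 11, 15, 16, 17, 19, 20, 21, 23, 24, 25],
    [0, 1, 2, 9, 19, 22],
    [0, 1, 2, 10, 19, 22],
    [0, 1, 2, 11, 19, 22]] a []

theorem mem_nb : ∀ a < 26, ∀ k < 26, poss a k = true → k ∈ nb a := by decide +kernel

/-- The rules on three and four consecutive vertices forbid appending `k`. -/
def tri : List ℕ → ℕ → Bool
  | [a, b], k => t3 b a k
  | a :: b :: c :: _, k => t3 b a k || t4 c b a k
  | _, _ => false

def close7 : List ℕ → ℕ → Bool
  | [c5, c4, c3, c2, c1, c0], k =>
    poss k c0 && (!tF c4 k && (!tF c3 k && (!tF c2 k && (!tF c1 k &&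
      (!t3 c4 c5 k && (!t3 c5 k c0 && (!t3 k c0 c1 &&
      (!t4 c3 c4 c5 k && (!t4 c4 c5 k c0 && (!t4 c5 k c0 c1 && !t4 k c0 c1 c2))))))))))
  | _, _ => true

/-- One bit of a number. -/
def bit (M k : ℕ) : Bool := Nat.beq (Nat.land 1 (Nat.shiftRight M k)) 1

theorem bit_eq (M k : ℕ) : bit M k = M.testBit k := by
  rw [Nat.testBit_eq_decide_div_mod_eq, ← Nat.shiftRight_eq_div_pow, ← Nat.one_and_eq_mod_two,
    Bool.eq_iff_iff, decide_eq_true_eq]
  exact Nat.beq_eq.to_iff

/-- `List.all`, by the recursor. -/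
noncomputable def allR (p : ℕ → Bool) (l : List ℕ) : Bool :=
  List.rec true (fun k _ ih => Bool.rec false ih (p k)) l

theorem allR_mem {p : ℕ → Bool} {l : List ℕ} (h : allR p l = true) {k : ℕ} (hk : k ∈ l) :
    p k = true := by
  induction l with
  | nil => simp at hk
  | cons a l ih =>
    have h' : (Bool.rec false (allR p l) (p a) : Bool) = true := h
    cases ha : p a with
    | false => rw [ha] at h'; simp at h'
    | true =>
      rw [ha] at h'
      rcases List.mem_cons.1 hk with rfl | hk
      · exact ha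
      · exact ih h' hk

/-- Depth-first search: `a` is the last kind, `prev` the earlier ones, `forb` the forbidden kinds. -/
noncomputable def search (fin : ℕ → List ℕ → Bool) (n : ℕ) : ℕ → List ℕ → ℕ → Bool :=
  Nat.rec (fun a prev _ => fin a prev)
    (fun _ ih a prev forb => allR (fun k => Bool.rec (Bool.rec
      (ih k (a :: prev) (Nat.lor forb (Nat.shiftRight mF (Nat.mul 26 a)))) true (tri (a :: prev) k))
      true (bit forb k)) (nb a)) n

theorem search_path : allR (fun a => search (fun _ _ => false) 7 a [] 0) (List.range 26) = true := by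
  decide +kernel

theorem search_cycle : allR (fun a =>
    search (fun a prev => allR (fun k => !(close7 (a :: prev) k)) (nb a)) 5 a [] 0)
    (List.range 26) = true := by
  decide +kernel

/-- The reversed list of the first values of a sequence. -/
def pre (c : ℕ → ℕ) : ℕ → List ℕ
  | 0 => []
  | i + 1 => c i :: pre c i

/-- The kinds forced to be adjacent to one of the first values of a sequence. -/
def forbOf (c : ℕ → ℕ) : ℕ → ℕ
  | 0 => 0
  | i + 1 => Nat.lor (forbOf c i) (Nat.shiftRight mF (Nat.mul 26 (c i)))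

theorem bit_forbOf (c : ℕ → ℕ) (k : ℕ) :
    ∀ i, (∀ b < i, tF (c b) k = false) → bit (forbOf c i) k = false := by
  intro i
  induction i with
  | zero => intro _; simp [bit_eq, forbOf]
  | succ i ih =>
    intro h
    have h1 := ih (fun b hb => h b (by omega))
    have h2 := h i (by omega)
    rw [bit_eq] at h1 ⊢
    rw [tF, look_eq] at h2
    change (forbOf c i ||| mF >>> (26 * c i)).testBit k = false
    rw [Nat.testBit_or, h1, Nat.testBit_shiftRight, h2]
    rfl

theorem search_sound (fin : ℕ → List ℕ → Bool) (c : ℕ → ℕ) (hc : ∀ j, c j < 26) :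
    ∀ n i, search fin n (c i) (pre c i) (forbOf c i) = true →
      (∀ j, j < i + n → poss (c j) (c (j + 1)) = true) →
      (∀ b j, b < j → j < i + n → tF (c b) (c (j + 1)) = false) →
      (∀ j, j < i + n → tri (pre c (j + 1)) (c (j + 1)) = false) →
      fin (c (i + n)) (pre c (i + n)) = true := by
  intro n
  induction n with
  | zero => intro i h _ _ _; exact h
  | succ n ih =>
    intro i h hP hF hT
    have h1 := allR_mem h (mem_nb _ (hc i) _ (hc (i + 1)) (hP i (by omega)))
    have h2 : tri (c i :: pre c i) (c (i + 1)) = false := hT i (by omega)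
    rw [bit_forbOf c _ i (fun b hb => hF b i hb (by omega)), h2] at h1
    have := ih (i + 1) h1 (fun j hj => hP j (by omega)) (fun b j hb hj => hF b j hb (by omega))
      (fun j hj => hT j (by omega))
    rwa [show i + 1 + n = i + (n + 1) by omega] at this

/-- A graph described by kinds, clause indices and variables. -/
structure Model (V : Type) where
  kind : V → ℕ
  idx : V → ℕ
  var : V → ℕ
  adj : V → V → Prop
  kind_lt : ∀ v, kind v < 26
  adj_iff : ∀ u v, adj u v ↔ tF (kind u) (kind v) = true ∨
    (tL (kind u) (kind v) = true ∧ idx u = idx v) ∨ (tV (kind u) (kind v) = true ∧ var u = var v)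
  inj : ∀ u v, base (kind u) = base (kind v) → idx u = idx v → u = v

namespace Model

variable {V : Type} (M : Model V)

theorem poss_of_adj {u v : V} (h : M.adj u v) : poss (M.kind u) (M.kind v) = true := by
  rw [M.adj_iff] at h
  simp only [poss_eq, Bool.or_eq_true]
  tauto

theorem tF_of_not_adj {u v : V} (h : ¬ M.adj u v) : tF (M.kind u) (M.kind v) = false := by
  rw [M.adj_iff] at h
  simp only [not_or, Bool.not_eq_true] at h
  exact h.1

theorem t3_of_adj {u v w : V} (h1 : M.adj u v) (h2 : M.adj v w) (h : u ≠ w) :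
    t3 (M.kind u) (M.kind v) (M.kind w) = false := by
  rw [M.adj_iff] at h1 h2
  rw [← Bool.not_eq_true]
  intro ht
  simp only [t3, Bool.and_eq_true, Nat.beq_eq] at ht
  obtain ⟨a, b, hb⟩ := ht
  simp only [tF_of_tL a, tV_of_tL a, tF_of_tL b, tV_of_tL b, Bool.false_eq_true, false_and,
    or_false, false_or] at h1 h2
  exact h (M.inj _ _ hb (h1.2.trans h2.2))

theorem t4_of_adj {u v w x : V} (h1 : M.adj u v) (h2 : M.adj v w) (h3 : M.adj w x)
    (h : ¬ M.adj u x) : t4 (M.kind u) (M.kind v) (M.kind w) (M.kind x) = false := by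
  rw [M.adj_iff] at h1 h2 h3 h
  rw [← Bool.not_eq_true]
  intro ht
  simp only [t4, Bool.and_eq_true] at ht
  obtain ⟨a, b, c, hb⟩ := ht
  simp only [tF_of_tV a, tL_of_tV a, tF_of_tV b, tL_of_tV b, tF_of_tV c, tL_of_tV c,
    Bool.false_eq_true, false_and, false_or] at h1 h2 h3
  exact h (Or.inr (Or.inr ⟨hb, h1.2.trans (h2.2.trans h3.2)⟩))

theorem no_path (f : ℕ → V) (hinj : ∀ i j, i < 8 → j < 8 → f i = f j → i = j)
    (hadj : ∀ i j, i < 8 → j < 8 → (M.adj (f i) (f j) ↔ i + 1 = j ∨ j + 1 = i)) : False := by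
  have hP : ∀ i, i + 1 < 8 → poss (M.kind (f i)) (M.kind (f (i + 1))) = true :=
    fun i hi => M.poss_of_adj ((hadj _ _ (by omega) hi).2 (Or.inl rfl))
  have hF : ∀ i j, i + 1 < j → j < 8 → tF (M.kind (f i)) (M.kind (f j)) = false :=
    fun i j h1 h2 => M.tF_of_not_adj (by rw [hadj _ _ (by omega) h2]; omega)
  have h3 : ∀ i, i + 2 < 8 →
      t3 (M.kind (f i)) (M.kind (f (i + 1))) (M.kind (f (i + 2))) = false :=
    fun i hi => M.t3_of_adj ((hadj _ _ (by omega) (by omega)).2 (Or.inl rfl))
      ((hadj _ _ (by omega) hi).2 (Or.inl rfl))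
      (fun h => by have := hinj _ _ (by omega) hi h; omega)
  have h4 : ∀ i, i + 3 < 8 → t4 (M.kind (f i)) (M.kind (f (i + 1))) (M.kind (f (i + 2)))
      (M.kind (f (i + 3))) = false :=
    fun i hi => M.t4_of_adj ((hadj _ _ (by omega) (by omega)).2 (Or.inl rfl))
      ((hadj _ _ (by omega) (by omega)).2 (Or.inl rfl)) ((hadj _ _ (by omega) hi).2 (Or.inl rfl))
      (by rw [hadj _ _ (by omega) hi]; omega)
  have h := search_sound (fun _ _ => false) (fun j => M.kind (f j)) (fun j => M.kind_lt _) 7 0
    (allR_mem search_path (List.mem_range.2 (M.kind_lt _))) (fun j hj => hP j (by omega))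
    (fun b j hb hj => hF b (j + 1) (by omega) (by omega)) ?_
  · simp at h
  intro j hj
  have hj' : j < 7 := by omega
  interval_cases j <;>
    simp [pre, tri, h3 0, h3 1, h3 2, h3 3, h3 4, h3 5, h4 0, h4 1, h4 2, h4 3, h4 4]

theorem no_cycle (f : ℕ → V) (hinj : ∀ i j, i < 7 → j < 7 → f i = f j → i = j)
    (hadj : ∀ i j, i < 7 → j < 7 →
      (M.adj (f i) (f j) ↔ (i + 1) % 7 = j ∨ (j + 1) % 7 = i)) : False := by
  have hP : ∀ i j, i < 7 → j < 7 → (i + 1) % 7 = j → poss (M.kind (f i)) (M.kind (f j)) = true :=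
    fun i j hi hj h => M.poss_of_adj ((hadj _ _ hi hj).2 (Or.inl h))
  have hF : ∀ i j, i + 1 < j → j < 7 → j < i + 6 → tF (M.kind (f i)) (M.kind (f j)) = false :=
    fun i j h1 h2 h3 => M.tF_of_not_adj (by rw [hadj _ _ (by omega) h2]; omega)
  have h3 : ∀ i j k, i < 7 → j < 7 → k < 7 → (i + 1) % 7 = j → (j + 1) % 7 = k →
      t3 (M.kind (f i)) (M.kind (f j)) (M.kind (f k)) = false :=
    fun i j k hi hj hk a b => M.t3_of_adj ((hadj _ _ hi hj).2 (Or.inl a))
      ((hadj _ _ hj hk).2 (Or.inl b)) (fun h => by have := hinj _ _ hi hk h; omega)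
  have h4 : ∀ i j k l, i < 7 → j < 7 → k < 7 → l < 7 → (i + 1) % 7 = j → (j + 1) % 7 = k →
      (k + 1) % 7 = l → t4 (M.kind (f i)) (M.kind (f j)) (M.kind (f k)) (M.kind (f l)) = false :=
    fun i j k l hi hj hk hl a b c => M.t4_of_adj ((hadj _ _ hi hj).2 (Or.inl a))
      ((hadj _ _ hj hk).2 (Or.inl b)) ((hadj _ _ hk hl).2 (Or.inl c))
      (by rw [hadj _ _ hi hl]; omega)
  have h := search_sound (fun a prev => allR (fun k => !(close7 (a :: prev) k)) (nb a))
    (fun j => M.kind (f j)) (fun j => M.kind_lt _) 5 0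
    (allR_mem search_cycle (List.mem_range.2 (M.kind_lt _)))
    (fun j hj => hP j (j + 1) (by omega) (by omega) (by omega))
    (fun b j hb hj => hF b (j + 1) (by omega) (by omega) (by omega)) ?_
  · have h1 := allR_mem h (mem_nb _ (M.kind_lt _) _ (M.kind_lt (f 6))
      (hP 5 6 (by omega) (by omega) (by omega)))
    simp [pre, close7, hP, hF, h3, h4] at h1
  intro j hj
  have hj' : j < 5 := by omega
  interval_cases j <;> simp [pre, tri, h3, h4]

end Model

end Pool.Agent.Lib.MP_c3ee0c_lc
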