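import Pool.Agent.Lib.MP_c3ee0c_lc.Gadget

/-!
The reduction is polynomial-time, and the language is in NP.
-/

namespace Pool.Agent.Lib.MP_c3ee0c_lc

open Pool.Agent.Shared.PolyTime N487b59b3 N68a2faeb N793a5b8e

section pt

variable {α β : Type} [N487b59b3 α] [N487b59b3 β]

theorem pt_getD {l : α → List β} {n : α → ℕ} {d : α → β} (hl : IsPolyTime l) (hn : IsPolyTime n)
    (hd : IsPolyTime d) : IsPolyTime (fun x => (l x).getD (n x) (d x)) :=
  (IsPolyTime.optionGetD (isPolyTime_getElem? hl hn) hd).of_eq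
    (fun _ => List.getD_eq_getElem?_getD.symm)

theorem pt_look (M : ℕ) {a b : α → ℕ} (ha : IsPolyTime a) (hb : IsPolyTime b) :
    IsPolyTime (fun x => look M (a x) (b x)) :=
  IsPolyTime.of_eq (f := fun x => M.testBit (26 * a x + b x)) (by fun_prop)
    (fun _ => (look_eq _ _ _).symm)

theorem pt_lit {φ : α → List (Clause3 ℕ)} {u : α → ℕ} (hφ : IsPolyTime φ) (hu : IsPolyTime u) :
    IsPolyTime (fun x => lit (φ x) (u x)) := by
  have h : IsPolyTime (fun x => cl (φ x) (u x / 23)) :=
    IsPolyTime.optionGetD (isPolyTime_getElem? hφ (by fun_prop)) (IsPolyTime.const _)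
  unfold lit pick
  fun_prop

theorem pt_kind {φ : α → List (Clause3 ℕ)} {u : α → ℕ} (hφ : IsPolyTime φ) (hu : IsPolyTime u) :
    IsPolyTime (fun x => kind (φ x) (u x)) := by
  have h := pt_lit hφ hu
  unfold kind kindOf
  fun_prop

theorem pt_adj {φ : α → List (Clause3 ℕ)} {u v : α → ℕ} (hφ : IsPolyTime φ) (hu : IsPolyTime u)
    (hv : IsPolyTime v) : IsPolyTime (fun x => adj (φ x) (u x) (v x)) := by
  have h1 := pt_lit hφ hu
  have h2 := pt_lit hφ hv
  have h3 := pt_kind hφ hu
  have h4 := pt_kind hφ hv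
  unfold adj
  exact ((pt_look mF h3 h4).or ((pt_look mL h3 h4).and (by fun_prop))).or
    ((pt_look mV h3 h4).and (by fun_prop))

end pt

/-- The adjacency matrix of the gadget graph. -/
def word (φ : List (Clause3 ℕ)) : List Bool :=
  (List.range (23 * φ.length * (23 * φ.length))).map fun k =>
    adj φ (k / (23 * φ.length)) (k % (23 * φ.length))

theorem pt_word : IsPolyTime word := by
  unfold word
  refine IsPolyTime.map (f := fun (φ : List (Clause3 ℕ)) k =>
    adj φ (k / (23 * φ.length)) (k % (23 * φ.length))) ?_ (by fun_prop)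
  exact pt_adj (by fun_prop) (by fun_prop) (by fun_prop)

theorem length_adjWord {n : ℕ} (G : SimpleGraph (Fin n)) : (adjWord G).length = n * n := by
  simp [adjWord]

theorem word_eq (φ : List (Clause3 ℕ)) : word φ = adjWord (graph φ) := by
  apply List.ext_getElem
  · simp [word, adjWord]
  · intro k h1 h2
    simp [word, adjWord, graph, Fin.divNat, Fin.modNat]

/-- The entry of a square matrix written row by row. -/
def entry (x : List Bool) (n i j : ℕ) : Bool := x.getD (i * n + j) false

theorem entry_adjWord {n : ℕ} (G : SimpleGraph (Fin n)) (i j : Fin n) :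
    entry (adjWord G) n i j = true ↔ G.Adj i j := by
  have hi := i.2
  have hj := j.2
  have h : (i : ℕ) * n + j < n * n := by nlinarith
  have h1 : ((i : ℕ) * n + j) / n = i := by
    rw [add_comm, Nat.add_mul_div_right _ _ (by omega), Nat.div_eq_of_lt hj, zero_add]
  have h2 : ((i : ℕ) * n + j) % n = j := by
    rw [add_comm, Nat.add_mul_mod_self_right, Nat.mod_eq_of_lt hj]
  rw [entry, List.getD_eq_getElem _ _ (by rwa [length_adjWord])]
  simp [adjWord, Fin.divNat, Fin.modNat, h1, h2]

theorem adjWord_inj {n m : ℕ} {G : SimpleGraph (Fin n)} {H : SimpleGraph (Fin m)}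
    (h : adjWord G = adjWord H) (P : ∀ {k : ℕ}, SimpleGraph (Fin k) → Prop) (hG : P G) : P H := by
  have h1 := congrArg List.length h
  rw [length_adjWord, length_adjWord] at h1
  obtain rfl : n = m := Nat.mul_self_inj.1 h1
  have : G = H := by
    ext i j
    rw [← entry_adjWord, ← entry_adjWord, h]
  exact this ▸ hG

/-- The promise version of hardness. -/
theorem hard : ∀ L ∈ NP, ∃ f : List Bool → List Bool, IsPolyTime f ∧ ∀ x,
    ∃ (n : ℕ) (G : SimpleGraph (Fin n)), f x = adjWord G ∧ FreeP8C7 G ∧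
      (L x = true ↔ G.Colorable 4) := by
  intro L hL
  obtain ⟨f, hf, hf'⟩ := npHard_sat3 L hL
  exact ⟨fun x => word (f x), pt_word.comp hf, fun x =>
    ⟨_, graph (f x), word_eq _, graph_free _, (hf' x).trans (sat_iff_colorable _)⟩⟩

theorem colLang_iff (x : List Bool) : colLang x = true ↔
    ∃ (n : ℕ) (G : SimpleGraph (Fin n)), x = adjWord G ∧ FreeP8C7 G ∧ G.Colorable 4 := by
  simp [colLang]

theorem reducible : ∀ L ∈ NP, ManyOneReducible L colLang := by
  intro L hL
  obtain ⟨f, hf, hf'⟩ := hard L hL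
  refine ⟨f, hf, fun x => ?_⟩
  obtain ⟨n, G, h1, h2, h3⟩ := hf' x
  rw [Bool.eq_iff_iff, h3, colLang_iff, h1]
  constructor
  · exact fun h => ⟨n, G, rfl, h2, h⟩
  · rintro ⟨m, H, e, -, h⟩
    exact adjWord_inj e.symm (fun G => G.Colorable 4) h

/-- All lists of length `k` with entries below `n`. -/
def tuples : ℕ → ℕ → List (List ℕ)
  | 0, _ => [[]]
  | k + 1, n => (tuples k n).flatMap fun t => (List.range n).map fun i => i :: t

theorem mem_tuples : ∀ (k n : ℕ) (t : List ℕ), t ∈ tuples k n ↔ t.length = k ∧ ∀ i ∈ t, i < n := by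
  intro k n
  induction k with
  | zero =>
    intro t
    cases t <;> simp [tuples]
  | succ k ih =>
    intro t
    cases t with
    | nil => simp [tuples]
    | cons a t => simp [tuples, ih]; tauto

theorem pt_tuples {α : Type} [N487b59b3 α] {n : α → ℕ} (hn : IsPolyTime n) (hb : PolyBdd n) :
    ∀ k, IsPolyTime (fun x => tuples k (n x)) := by
  intro k
  induction k with
  | zero => exact IsPolyTime.const _
  | succ k ih =>
    have h := IsPolyTime.range hn hb
    simp only [tuples]
    fun_prop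

/-- Search for an induced copy of a pattern. -/
def hasCopy {k : ℕ} (h : Fin k → Fin k → Bool) (x : List Bool) (n : ℕ) : Bool :=
  (tuples k n).any fun t => decide (∀ a b : Fin k,
    entry x n (t.getD a 0) (t.getD b 0) = h a b ∧ (t.getD a 0 = t.getD b 0 → a = b))

theorem hasCopy_iff {k n : ℕ} (H : SimpleGraph (Fin k)) (h : Fin k → Fin k → Bool)
    (hH : ∀ a b, h a b = true ↔ H.Adj a b) (G : SimpleGraph (Fin n)) :
    hasCopy h (adjWord G) n = true ↔ Nonempty (H ↪g G) := by
  simp only [hasCopy, List.any_eq_true, decide_eq_true_eq, mem_tuples]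
  constructor
  · rintro ⟨t, ⟨h1, h2⟩, h3⟩
    have h4 : ∀ a : Fin k, t.getD a 0 < n := by
      intro a
      rw [List.getD_eq_getElem _ _ (by rw [h1]; exact a.2)]
      exact h2 _ (List.getElem_mem _)
    refine ⟨⟨⟨fun a => ⟨t.getD a 0, h4 a⟩, fun a b hab => (h3 a b).2 (congrArg Fin.val hab)⟩, ?_⟩⟩
    intro a b
    rw [← hH, ← (h3 a b).1]
    exact (entry_adjWord G ⟨_, h4 a⟩ ⟨_, h4 b⟩).symm
  · rintro ⟨e⟩
    have h1 : ∀ a : Fin k, (List.ofFn fun a => (e a : ℕ)).getD a 0 = e a := by
      intro a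
      rw [List.getD_eq_getElem _ _ (by simp)]
      simp
    refine ⟨List.ofFn fun a => (e a : ℕ), ⟨by simp, ?_⟩, fun a b => ?_⟩
    · intro i hi
      obtain ⟨a, rfl⟩ := List.mem_ofFn.1 hi
      exact (e a).2
    · rw [h1, h1]
      refine ⟨?_, fun hab => e.injective (Fin.ext hab)⟩
      rw [Bool.eq_iff_iff, entry_adjWord, hH]
      exact e.map_adj_iff

theorem pt_entry {α : Type} [N487b59b3 α] {x : α → List Bool} {n i j : α → ℕ} (hx : IsPolyTime x)
    (hn : IsPolyTime n) (hi : IsPolyTime i) (hj : IsPolyTime j) :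
    IsPolyTime (fun z => entry (x z) (n z) (i z) (j z)) :=
  pt_getD hx (by fun_prop) (IsPolyTime.const _)

theorem pt_hasCopy {α : Type} [N487b59b3 α] {k : ℕ} (h : Fin k → Fin k → Bool)
    {x : α → List Bool} {n : α → ℕ} (hx : IsPolyTime x) (hn : IsPolyTime n) (hb : PolyBdd n) :
    IsPolyTime (fun z => hasCopy h (x z) (n z)) := by
  unfold hasCopy
  refine IsPolyTime.any ?_ (pt_tuples hn hb k)
  refine IsPolyTime.decide_forall_finite (fun a => IsPolyTime.decide_forall_finite (fun b => ?_))
  have ha : IsPolyTime (fun z : α × List ℕ => z.2.getD a 0) :=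
    pt_getD (by fun_prop) (IsPolyTime.const _) (IsPolyTime.const _)
  have hb : IsPolyTime (fun z : α × List ℕ => z.2.getD b 0) :=
    pt_getD (by fun_prop) (IsPolyTime.const _) (IsPolyTime.const _)
  have he : IsPolyTime (fun z : α × List ℕ => entry (x z.1) (n z.1) (z.2.getD a 0) (z.2.getD b 0)) :=
    pt_entry (by fun_prop) (by fun_prop) ha hb
  fun_prop

/-- The adjacency of the path on 8 vertices. -/
def hP8 (a b : Fin 8) : Bool := decide ((a : ℕ) + 1 = b ∨ (b : ℕ) + 1 = a)

/-- The adjacency of the cycle on 7 vertices. -/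
def hC7 (a b : Fin 7) : Bool := decide ((SimpleGraph.cycleGraph 7).Adj a b)

/-- The colour of a vertex read in the witness. -/
def wcol (w : List Bool) (i : ℕ) : Bool × Bool := (w.getD (2 * i) false, w.getD (2 * i + 1) false)

/-- The verifier. -/
def verify (x w : List Bool) : Bool :=
  decide (x.length = w.length / 2 * (w.length / 2)) &&
  ((List.range (w.length / 2)).all fun i => (List.range (w.length / 2)).all fun j =>
    decide (entry x (w.length / 2) i j = entry x (w.length / 2) j i) &&
      (!entry x (w.length / 2) i j || decide (wcol w i ≠ wcol w j))) &&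
  !hasCopy hP8 x (w.length / 2) && !hasCopy hC7 x (w.length / 2)

theorem pt_wcol {α : Type} [N487b59b3 α] {w : α → List Bool} {i : α → ℕ} (hw : IsPolyTime w)
    (hi : IsPolyTime i) : IsPolyTime (fun z => wcol (w z) (i z)) :=
  (pt_getD hw (by fun_prop) (IsPolyTime.const _)).pair (pt_getD hw (by fun_prop) (IsPolyTime.const _))

theorem pt_verify : IsPolyTime (fun z : List Bool × List Bool => verify z.1 z.2) := by
  unfold verify
  refine ((IsPolyTime.and (by fun_prop) ?_).and
    (pt_hasCopy _ (by fun_prop) (by fun_prop) (by fun_prop)).not).and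
    (pt_hasCopy _ (by fun_prop) (by fun_prop) (by fun_prop)).not
  refine IsPolyTime.all ?_ (by fun_prop)
  refine IsPolyTime.all (α := (List Bool × List Bool) × ℕ) ?_ (by fun_prop)
  have h1 : IsPolyTime (fun z : ((List Bool × List Bool) × ℕ) × ℕ =>
      entry z.1.1.1 (z.1.1.2.length / 2) z.1.2 z.2) :=
    pt_entry (by fun_prop) (by fun_prop) (by fun_prop) (by fun_prop)
  have h2 : IsPolyTime (fun z : ((List Bool × List Bool) × ℕ) × ℕ =>
      entry z.1.1.1 (z.1.1.2.length / 2) z.2 z.1.2) :=
    pt_entry (by fun_prop) (by fun_prop) (by fun_prop) (by fun_prop)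
  have h3 : IsPolyTime (fun z : ((List Bool × List Bool) × ℕ) × ℕ => wcol z.1.1.2 z.1.2) :=
    pt_wcol (by fun_prop) (by fun_prop)
  have h4 : IsPolyTime (fun z : ((List Bool × List Bool) × ℕ) × ℕ => wcol z.1.1.2 z.2) :=
    pt_wcol (by fun_prop) (by fun_prop)
  exact (IsPolyTime.decide_eq h1 h2).and (h1.not.or (IsPolyTime.decide_ne h3 h4))

theorem free_iff {n : ℕ} (G : SimpleGraph (Fin n)) : FreeP8C7 G ↔
    hasCopy hP8 (adjWord G) n = false ∧ hasCopy hC7 (adjWord G) n = false := by
  rw [FreeP8C7, ← not_nonempty_iff, ← not_nonempty_iff,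
    ← hasCopy_iff _ hP8 (fun a b => by simp [hP8, SimpleGraph.pathGraph_adj]),
    ← hasCopy_iff _ hC7 (fun a b => by simp [hC7])]
  simp

theorem verify_sound {x w : List Bool} (h : verify x w = true) : colLang x = true := by
  simp only [verify, Bool.and_eq_true, decide_eq_true_eq, List.all_eq_true, List.mem_range,
    Bool.or_eq_true, Bool.not_eq_true'] at h
  obtain ⟨⟨⟨h1, h2⟩, h3⟩, h4⟩ := h
  generalize w.length / 2 = n at h1 h2 h3 h4
  let G : SimpleGraph (Fin n) :=
    { Adj := fun i j => entry x n i j = true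
      symm := ⟨fun i j h => by rwa [← (h2 i i.2 j j.2).1]⟩
      loopless := ⟨fun i h => by simpa [h] using (h2 i i.2 i i.2).2⟩ }
  have hx : x = adjWord G := by
    apply List.ext_getElem
    · rw [h1, length_adjWord]
    · intro k k1 k2
      have : k / n * n + k % n = k := Nat.div_add_mod' k n
      simp [adjWord, G, Fin.divNat, Fin.modNat, entry, this, k1]
  rw [colLang_iff]
  refine ⟨n, G, hx, ?_, ?_⟩
  · rw [free_iff, ← hx]
    exact ⟨h3, h4⟩
  · have := (SimpleGraph.Coloring.mk (G := G) (fun i => wcol w i) (fun {i j} hij => by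
      have hij' : entry x n i j = true := hij
      simpa [hij'] using (h2 i i.2 j j.2).2)).colorable
    simpa using this

theorem verify_complete {x : List Bool} (h : colLang x = true) :
    ∃ w : List Bool, w.length ≤ 2 * x.length ∧ verify x w = true := by
  obtain ⟨n, G, rfl, hf, ⟨C⟩⟩ := (colLang_iff x).1 h
  let col : ℕ → Fin 4 := fun i => if h : i < n then C ⟨i, h⟩ else 0
  let w : List Bool := (List.range (2 * n)).map fun k => Nat.testBit (col (k / 2)) (k % 2)
  have hw : w.length = 2 * n := by simp [w]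
  have hn : w.length / 2 = n := by omega
  have hc : ∀ i < n, wcol w i = (Nat.testBit (col i) 0, Nat.testBit (col i) 1) := by
    intro i hi
    have e1 : 2 * i / 2 = i := by omega
    have e2 : (2 * i + 1) / 2 = i := by omega
    have e3 : 2 * i % 2 = 0 := by omega
    have e4 : (2 * i + 1) % 2 = 1 := by omega
    rw [wcol, List.getD_eq_getElem _ _ (by omega), List.getD_eq_getElem _ _ (by omega)]
    simp only [w, List.getElem_map, List.getElem_range, e1, e2, e3, e4]
  refine ⟨w, ?_, ?_⟩
  · rw [hw, length_adjWord]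
    exact Nat.mul_le_mul_left 2 (Nat.le_mul_self n)
  · obtain ⟨f1, f2⟩ := (free_iff G).1 hf
    simp only [verify, hn, Bool.and_eq_true, decide_eq_true_eq, List.all_eq_true, List.mem_range,
      Bool.or_eq_true, Bool.not_eq_true']
    refine ⟨⟨⟨length_adjWord G, fun i hi j hj => ⟨?_, ?_⟩⟩, f1⟩, f2⟩
    · rw [Bool.eq_iff_iff]
      exact (entry_adjWord G ⟨i, hi⟩ ⟨j, hj⟩).trans
        ((G.adj_comm _ _).trans (entry_adjWord G ⟨j, hj⟩ ⟨i, hi⟩).symm)
    · by_cases hadj : G.Adj ⟨i, hi⟩ ⟨j, hj⟩
      · right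
        rw [hc i hi, hc j hj]
        have h1 : col i ≠ col j := by
          simp only [col, hi, hj, dite_true]
          exact C.valid hadj
        have key : ∀ a b : Fin 4, a ≠ b →
            (Nat.testBit a 0, Nat.testBit a 1) ≠ (Nat.testBit b 0, Nat.testBit b 1) := by decide
        exact key _ _ h1
      · left
        exact Bool.eq_false_iff.2 (fun h => hadj ((entry_adjWord G ⟨i, hi⟩ ⟨j, hj⟩).1 h))

theorem colLang_mem_NP : colLang ∈ NP := by
  refine ⟨2 * Polynomial.X, fun z => verify z.1 z.2, pt_verify, fun x => ⟨fun h => ?_, ?_⟩⟩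
  · obtain ⟨w, h1, h2⟩ := verify_complete h
    exact ⟨w, by simpa using h1, h2⟩
  · rintro ⟨w, -, h⟩
    exact verify_sound h

end Pool.Agent.Lib.MP_c3ee0c_lc
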